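import Pool.Agent.H10.CM.FStmts

set_option autoImplicit false

open Polynomial

namespace Pool.CM

namespace XDE

variable {E : Type} [Field E]

/-- an additive operator acting on the coefficients of Laurent series -/
noncomputable def T (τ : ℤ → E →+ E) (f : LaurentSeries E) : LaurentSeries E where
  coeff k := τ k (f.coeff k)
  isPWO_support' := f.isPWO_support.mono (by
    intro k hk
    rw [Function.mem_support] at hk
    rw [HahnSeries.mem_support]
    intro h
    exact hk (by rw [h, map_zero]))

theorem T_coeff (τ : ℤ → E →+ E) (f : LaurentSeries E) (k : ℤ) :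
    (T τ f).coeff k = τ k (f.coeff k) := rfl

theorem T_support (τ : ℤ → E →+ E) (f : LaurentSeries E) : (T τ f).support ⊆ f.support := by
  intro k hk
  rw [HahnSeries.mem_support] at hk ⊢
  intro h
  exact hk (by rw [T_coeff, h, map_zero])

theorem T_mul (τ : ℤ → E →+ E) (hτ : ∀ i j u v, τ (i + j) (u * v) = τ i u * v + u * τ j v)
    (f g : LaurentSeries E) : T τ (f * g) = T τ f * g + f * T τ g := by
  ext k
  rw [T_coeff, HahnSeries.coeff_add, HahnSeries.coeff_mul,
    HahnSeries.coeff_mul_left' f.isPWO_support (T_support τ f),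
    HahnSeries.coeff_mul_right' g.isPWO_support (T_support τ g), map_sum,
    ← Finset.sum_add_distrib]
  refine Finset.sum_congr rfl fun ij hij => ?_
  rw [Finset.mem_antidiagonal] at hij
  rw [← hij.2.2, hτ, T_coeff, T_coeff]

theorem ex_D (D : RatFunc E → RatFunc E) (hD : ∀ x y, D (x * y) = x * D y + y * D x)
    (τ : ℤ → E →+ E)
    (hτ : ∀ i j u v, τ (i + j) (u * v) = τ i u * v + u * τ j v)
    (h : ∀ g : E[X], ex E (D (algebraMap E[X] (RatFunc E) g)) = T τ (exP E g)) (x : RatFunc E) :
    ex E (D x) = T τ (ex E x) := by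
  obtain ⟨g, w, hw, rfl⟩ := IsFractionRing.div_surjective (A := E[X]) x
  have hw0 : algebraMap E[X] (RatFunc E) w ≠ 0 := by
    intro h0
    exact nonZeroDivisors.coe_ne_zero ⟨w, hw⟩ ((IsFractionRing.injective E[X] (RatFunc E))
      (by rw [h0, map_zero]))
  set x : RatFunc E := algebraMap E[X] (RatFunc E) g / algebraMap E[X] (RatFunc E) w with hx
  have h1 : x * algebraMap E[X] (RatFunc E) w = algebraMap E[X] (RatFunc E) g :=
    div_mul_cancel₀ _ hw0
  have h2 := congrArg (fun y => ex E (D y)) h1
  simp only [hD, map_add, map_mul, h, ex_algebraMap] at h2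
  have h3 := congrArg (fun y => T τ (ex E y)) h1
  simp only [map_mul, T_mul τ hτ, ex_algebraMap] at h3
  have hw1 : exP E w ≠ 0 := by
    rw [← ex_algebraMap]
    intro h0
    exact hw0 (ex_injective E (by rw [h0, map_zero]))
  have h4 : exP E w * ex E (D x) = exP E w * T τ (ex E x) := by
    rw [← h3] at h2
    linear_combination h2
  exact mul_left_cancel₀ hw1 h4

end XDE

theorem xde : XDEStmt := by
  intro X E _ A x k
  constructor
  · let τ : ℤ → E →+ E := fun k => AddMonoidHom.mulLeft (k : E)
    have h : ex E (fd (nabP E) x) = XDE.T τ (ex E x) := by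
      refine XDE.ex_D (fun y => fd (nabP E) y) (fun y z => ?_) τ ?_ ?_ x
      · simp only [Derivation.leibniz, smul_eq_mul]
      · intro i j u v
        change ((i + j : ℤ) : E) * (u * v) = (i : E) * u * v + u * ((j : E) * v)
        push_cast
        ring
      · intro g
        rw [fd_algebraMap, ex_algebraMap]
        ext k
        rw [XDE.T_coeff]
        change _ = (k : E) * (exP E g).coeff k
        rcases lt_or_ge k 0 with hk | hk
        · rw [exP_coeff_neg _ _ hk, exP_coeff_neg _ _ hk, mul_zero]
        · obtain ⟨b, rfl⟩ := Int.eq_ofNat_of_zero_le hk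
          rw [exP_coeff_nat, exP_coeff_nat, Int.cast_natCast]
          exact nabP_coeff g b
    have h1 := congrArg (fun f : LaurentSeries E => f.coeff k) h
    exact h1
  · intro j
    let τ : ℤ → E →+ E := fun _ => (A.D j).toLinearMap.toAddMonoidHom
    have h : ex E (fd (dCoeff (A.D j)) x) = XDE.T τ (ex E x) := by
      refine XDE.ex_D (fun y => fd (dCoeff (A.D j)) y) (fun y z => ?_) τ ?_ ?_ x
      · simp only [Derivation.leibniz, smul_eq_mul]
      · intro i i' u v
        change A.D j (u * v) = A.D j u * v + u * A.D j v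
        rw [Derivation.leibniz, smul_eq_mul, smul_eq_mul]
        ring
      · intro g
        rw [fd_algebraMap, ex_algebraMap]
        ext k
        rw [XDE.T_coeff]
        change _ = A.D j ((exP E g).coeff k)
        rcases lt_or_ge k 0 with hk | hk
        · rw [exP_coeff_neg _ _ hk, exP_coeff_neg _ _ hk, map_zero]
        · obtain ⟨b, rfl⟩ := Int.eq_ofNat_of_zero_le hk
          rw [exP_coeff_nat, exP_coeff_nat]
          exact dCoeff_coeff (A.D j) g b
    have h1 := congrArg (fun f : LaurentSeries E => f.coeff k) h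
    exact h1

end Pool.CM
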