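import Pool.Agent.H10.CM.FStmts

set_option autoImplicit false

open Polynomial

namespace Pool.CM

namespace XCG

variable {X : Idx} {E : Type} [Field E] {A : PF X E}

theorem dv_add {i : X.I} {M : ℕ} {x y : E} (hx : A.Dv i M x) (hy : A.Dv i M y) :
    A.Dv i M (x + y) := by
  obtain ⟨a, ha, rfl⟩ := hx
  obtain ⟨b, hb, rfl⟩ := hy
  exact ⟨a + b, (A.O i).add_mem ha hb, by ring⟩

theorem dv_mul {i : X.I} {M : ℕ} {x y : E} (hx : A.Dv i M x) (hy : y ∈ A.O i) :
    A.Dv i M (x * y) := by
  obtain ⟨a, ha, rfl⟩ := hx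
  exact ⟨a * y, (A.O i).mul_mem ha hy, by ring⟩

theorem dv_zero {i : X.I} {M : ℕ} : A.Dv i M 0 := ⟨0, (A.O i).zero_mem, by ring⟩

theorem dv_sum {i : X.I} {M : ℕ} {ι : Type*} (s : Finset ι) (f : ι → E)
    (h : ∀ a ∈ s, A.Dv i M (f a)) : A.Dv i M (∑ a ∈ s, f a) := by
  classical
  induction s using Finset.induction_on with
  | empty => rw [Finset.sum_empty]; exact dv_zero
  | insert a s ha ih =>
    rw [Finset.sum_insert ha]
    exact dv_add (h a (Finset.mem_insert_self a s))
      (ih fun b hb => h b (Finset.mem_insert_of_mem hb))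

theorem p_ne_zero (hA : A.Ax) (i : X.I) : (X.p i : E) ≠ 0 := by
  intro h
  apply hA.p_inv i
  rw [h, inv_zero]
  exact (A.O i).zero_mem

/-- iterated saturation -/
theorem pol_sat_pow (hA : A.Ax) (i : X.I) (d : ℕ) (M : ℕ) : ∀ x : E, x ∈ A.O i →
    (X.p i : E) ^ M * x ∈ A.pol i d → x ∈ A.pol i d := by
  induction M with
  | zero =>
    intro x _ h
    rwa [pow_zero, one_mul] at h
  | succ M ih =>
    intro x hx h
    apply ih x hx
    apply hA.pol_sat i d
    · exact (A.O i).mul_mem ((A.O i).pow_mem (natCast_mem (A.O i) _) _) hx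
    · rw [← mul_assoc, ← pow_succ']
      exact h

theorem exP_coeff_cases {P : E → Prop} (g : E[X]) (h0 : P 0) (h : ∀ n, P (g.coeff n)) (k : ℤ) :
    P ((exP E g).coeff k) := by
  rcases lt_or_ge k 0 with hk | hk
  · rw [exP_coeff_neg _ _ hk]
    exact h0
  · obtain ⟨b, rfl⟩ := Int.eq_ofNat_of_zero_le hk
    have := exP_coeff_nat g b
    rw [this]
    exact h b

end XCG

open XCG in
theorem xcg (h1 : VALUStmt) (h2 : GAUStmt) (h3 : XTStmt) : XCGStmt := by
  intro X E _ A hA i d x M hx
  obtain ⟨g, ⟨g', hg', rfl⟩, h, ⟨h', hh', hlow, rfl⟩, hxe⟩ := hx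
  obtain ⟨G1, G2, G3, G4, G5⟩ := h2 X E A hA i
  have hp0 := p_ne_zero hA i
  obtain ⟨a, ha, hlow'⟩ := hlow
  have hprim : A.Prim i h' := ⟨fun n => hA.pol_O i d _ (hh'.2 n), a, hA.den_un i d _ ha⟩
  have hun := G3 h' hprim
  have hh0 : algebraMap E[X] (RatFunc E) h' ≠ 0 := hun.1
  constructor
  · rintro ⟨y, hy, hxy⟩
    have hg5 : A.ext.Dv i M (algebraMap E[X] (RatFunc E) g') := by
      refine ⟨y * algebraMap E[X] (RatFunc E) h', (A.ext.O i).mul_mem hy hun.2.1, ?_⟩
      rw [← hxe, hxy]
      ring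
    have hg5' := (G5 g' M).1 hg5
    choose b hb hb' using hg5'
    -- the polynomial `g' / p ^ M`
    have hb0 : ∀ n, g'.coeff n = 0 → b n = 0 := by
      intro n hn
      have := hb' n
      rw [hn] at this
      rcases mul_eq_zero.1 this.symm with h | h
      · exact absurd h (pow_ne_zero _ hp0)
      · exact h
    let g'' : E[X] := ∑ n ∈ Finset.range (g'.natDegree + 1), monomial n (b n)
    have hco : ∀ n, g''.coeff n = b n := by
      intro n
      simp only [g'', Polynomial.finsetSum_coeff, Polynomial.coeff_monomial]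
      rw [Finset.sum_ite_eq']
      split_ifs with hn
      · rfl
      · rw [hb0 n]
        apply Polynomial.coeff_eq_zero_of_natDegree_lt
        rw [Finset.mem_range] at hn
        omega
    have hgg : g' = C ((X.p i : E) ^ M) * g'' := by
      ext n
      rw [Polynomial.coeff_C_mul, hco, ← hb']
    have hpd : A.Pd i d g'' := by
      constructor
      · rw [Polynomial.natDegree_le_iff_coeff_eq_zero]
        intro n hn
        rw [hco]
        apply hb0
        apply Polynomial.coeff_eq_zero_of_natDegree_lt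
        exact lt_of_le_of_lt hg'.1 hn
      · intro n
        rw [hco]
        apply pol_sat_pow hA i d M _ (hb n)
        rw [← hb']
        exact hg'.2 n
    set z : RatFunc E := x * (algebraMap E[X] (RatFunc E) (C ((X.p i : E) ^ M)))⁻¹ with hz
    have hC0 : algebraMap E[X] (RatFunc E) (C ((X.p i : E) ^ M)) ≠ 0 := by
      intro h0
      have h00 := (IsFractionRing.injective E[X] (RatFunc E)) (h0.trans (map_zero _).symm)
      exact pow_ne_zero M hp0 (Polynomial.C_eq_zero.1 h00)
    have hzt : z ∈ A.ext.t i d := by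
      refine ⟨_, ⟨g'', hpd, rfl⟩, _, ⟨h', hh', ⟨a, ha, hlow'⟩, rfl⟩, ?_⟩
      have e1 : algebraMap E[X] (RatFunc E) g' = algebraMap E[X] (RatFunc E)
          (C ((X.p i : E) ^ M)) * algebraMap E[X] (RatFunc E) g'' := by
        rw [← map_mul, ← hgg]
      rw [e1] at hxe
      rw [hz]
      field_simp
      rw [hxe]
    have hxz : x = algebraMap E[X] (RatFunc E) (C ((X.p i : E) ^ M)) * z := by
      rw [hz]
      field_simp
    intro k
    refine ⟨(ex E z).coeff k, (h3 X E A hA i d z hzt).1 k, ?_⟩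
    rw [hxz, map_mul, ex_algebraMap]
    have e2 : exP E (C ((X.p i : E) ^ M)) = HahnSeries.C ((X.p i : E) ^ M) := by
      ext k
      rw [HahnSeries.C_apply]
      rcases lt_or_ge k 0 with hk | hk
      · rw [exP_coeff_neg _ _ hk, HahnSeries.coeff_single_of_ne hk.ne]
      · obtain ⟨b, rfl⟩ := Int.eq_ofNat_of_zero_le hk
        rw [exP_coeff_nat, Polynomial.coeff_C]
        rcases Nat.eq_zero_or_pos b with rfl | hb
        · rw [if_pos rfl]
          exact (HahnSeries.coeff_single_same 0 _).symm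
        · rw [if_neg hb.ne', HahnSeries.coeff_single_of_ne (by exact_mod_cast hb.ne')]
    rw [e2, HahnSeries.C_mul_eq_smul, HahnSeries.coeff_smul, smul_eq_mul]
  · intro hk
    have hcong : ex E x * exP E h' = exP E g' := by
      rw [← ex_algebraMap, ← ex_algebraMap, ← map_mul, hxe]
    have hg5 : A.ext.Dv i M (algebraMap E[X] (RatFunc E) g') := by
      rw [G5]
      intro n
      rw [← exP_coeff_nat, ← hcong, HahnSeries.coeff_mul]
      apply dv_sum
      intro ij _
      apply dv_mul (hk _)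
      exact exP_coeff_cases (P := fun u => u ∈ A.O i) h' (A.O i).zero_mem
        (fun n => hA.pol_O i d _ (hh'.2 n)) _
    obtain ⟨y, hy, hgy⟩ := hg5
    refine ⟨y * (algebraMap E[X] (RatFunc E) h')⁻¹, (A.ext.O i).mul_mem hy hun.2.2, ?_⟩
    rw [← mul_assoc, ← hgy, ← hxe, mul_assoc, mul_inv_cancel₀ hh0, mul_one]

end Pool.CM
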