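import Pool.Agent.H10.CM.FStmts

set_option autoImplicit false

open Polynomial

namespace Pool.CM

namespace XPH

variable {E : Type} [Field E]

/-- a ring hom of the coefficients acting on Laurent series -/
noncomputable def mapRH (φ : E →+* E) : LaurentSeries E →+* LaurentSeries E where
  toFun x := x.map φ
  map_one' := by
    ext k
    rw [HahnSeries.map_coeff, HahnSeries.coeff_one]
    split_ifs
    · exact map_one φ
    · exact map_zero φ
  map_mul' x y := HahnSeries.map_mul (φ : E →ₙ+* E)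
  map_zero' := by
    ext k
    rw [HahnSeries.map_coeff, HahnSeries.coeff_zero, map_zero]
  map_add' x y := by
    ext k
    rw [HahnSeries.map_coeff, HahnSeries.coeff_add, HahnSeries.coeff_add, HahnSeries.map_coeff,
      HahnSeries.map_coeff, map_add]

/-- `∑ a_k x^k ↦ ∑ φ(a_k) x^(p k)` -/
noncomputable def Fr (φ : E →+* E) (p : ℕ) (hp : 0 < p) : LaurentSeries E →+* LaurentSeries E :=
  (HahnSeries.embDomainRingHom (AddMonoidHom.mulLeft (p : ℤ))
    (fun a b h => by
      have h' : (p : ℤ) * a = p * b := h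
      exact mul_left_cancel₀ (by exact_mod_cast hp.ne') h')
    (fun a b => by
      change (p : ℤ) * a ≤ p * b ↔ a ≤ b
      exact mul_le_mul_iff_right₀ (by exact_mod_cast hp))).comp (mapRH φ)

theorem Fr_coeff_mul (φ : E →+* E) (p : ℕ) (hp : 0 < p) (x : LaurentSeries E) (k : ℤ) :
    (Fr φ p hp x).coeff ((p : ℤ) * k) = φ (x.coeff k) :=
  HahnSeries.embDomain_mk_coeff (f := fun a : ℤ => (p : ℤ) * a) _ _

theorem Fr_coeff_not (φ : E →+* E) (p : ℕ) (hp : 0 < p) (x : LaurentSeries E) (k : ℤ)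
    (hk : ¬ (p : ℤ) ∣ k) : (Fr φ p hp x).coeff k = 0 := by
  refine HahnSeries.embDomain_of_notMem_range ?_
  rintro ⟨a, ha⟩
  have ha' : (p : ℤ) * a = k := ha
  exact hk ⟨a, ha'.symm⟩

theorem exP_phiP (φ : E →+* E) (p : ℕ) (hp : 0 < p) (g : E[X]) :
    exP E (phiP φ p g) = Fr φ p hp (exP E g) := by
  ext k
  by_cases hk : (p : ℤ) ∣ k
  · obtain ⟨a, rfl⟩ := hk
    rw [Fr_coeff_mul]
    rcases lt_or_ge a 0 with ha | ha
    · rw [exP_coeff_neg g a ha, exP_coeff_neg _ _
        (mul_neg_of_pos_of_neg (by exact_mod_cast hp) ha), map_zero]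
    · obtain ⟨b, rfl⟩ := Int.eq_ofNat_of_zero_le ha
      have h1 : (p : ℤ) * (b : ℤ) = ((p * b : ℕ) : ℤ) := by push_cast; ring
      rw [h1]
      change (exP E (phiP φ p g)).coeff ((p * b : ℕ) : ℤ) = φ ((exP E g).coeff (b : ℤ))
      rw [exP_coeff_nat, exP_coeff_nat, phiP_apply, Polynomial.coeff_expand hp,
        if_pos (Dvd.intro b rfl), Nat.mul_div_cancel_left b hp, Polynomial.coeff_map]
  · rw [Fr_coeff_not φ p hp _ k hk]
    rcases lt_or_ge k 0 with ha | ha
    · exact exP_coeff_neg _ _ ha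
    · obtain ⟨b, rfl⟩ := Int.eq_ofNat_of_zero_le ha
      rw [exP_coeff_nat, phiP_apply, Polynomial.coeff_expand hp, if_neg]
      intro h
      exact hk (by exact_mod_cast h)

theorem ex_phiR (φ : E →+* E) (p : ℕ) (hp : 0 < p) (x : RatFunc E) :
    ex E (phiR φ p hp x) = Fr φ p hp (ex E x) := by
  have h : (ex E).comp (phiR φ p hp) = (Fr φ p hp).comp (ex E) := by
    apply IsLocalization.ringHom_ext (nonZeroDivisors E[X])
    refine RingHom.ext fun g => ?_
    simp only [RingHom.comp_apply, phiR_algebraMap, ex_algebraMap, exP_phiP φ p hp]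
  exact RingHom.congr_fun h x

end XPH

theorem xph : XPHStmt := by
  intro X E _ A i x k
  have hp := (X.hp i).pos
  have h1 : ex E (A.ext.phi i x) = XPH.Fr (A.phi i) (X.p i) hp (ex E x) :=
    XPH.ex_phiR (A.phi i) (X.p i) hp x
  constructor
  · rintro ⟨a, rfl⟩
    rw [h1, XPH.Fr_coeff_mul, Int.mul_ediv_cancel_left _ (by exact_mod_cast hp.ne')]
  · intro hk
    rw [h1, XPH.Fr_coeff_not _ _ _ _ _ hk]

end Pool.CM
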